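import Pool.Agent.H3.BI.Stm2

/-!
# Project BD, part BND
-/

set_option autoImplicit false

open scoped ENNReal
open Finset MeasureTheory

namespace Pool.Agent.H18.BD

open Pool.Agent.H3.BI

theorem one_sub_rpow_lower {γ t : ℝ} (hγ : 0 < γ) (ht0 : 0 < t) (ht1 : t ≤ 1) :
    min 1 γ * (1 - t) ≤ 1 - t ^ γ := by
  rcases le_total 1 γ with h | h
  · rw [min_eq_left h]
    have h1 : t ^ γ ≤ t ^ (1 : ℝ) := Real.rpow_le_rpow_of_exponent_ge ht0 ht1 h
    rw [Real.rpow_one] at h1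
    linarith
  · rw [min_eq_right h]
    have h1 := _root_.rpow_one_add_le_one_add_mul_self (s := t - 1) (by linarith) hγ.le h
    rw [show 1 + (t - 1) = t by ring] at h1
    linarith

theorem one_sub_rpow_upper {γ t : ℝ} (hγ : 0 < γ) (ht0 : 0 < t) (ht1 : t ≤ 1) :
    1 - t ^ γ ≤ max 1 γ * (1 - t) := by
  rcases le_total 1 γ with h | h
  · rw [max_eq_right h]
    have h1 := one_add_mul_self_le_rpow_one_add (s := t - 1) (by linarith) h
    rw [show 1 + (t - 1) = t by ring] at h1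
    linarith
  · rw [max_eq_left h]
    have h1 : t ^ (1 : ℝ) ≤ t ^ γ := Real.rpow_le_rpow_of_exponent_ge ht0 ht1 h
    rw [Real.rpow_one] at h1
    linarith

/-- Two-sided bounds for the difference of two powers. -/
theorem diff_bounds {γ a S D E Y : ℝ} (hγ : 0 < γ) (ha : 1 ≤ a) (hS : 0 ≤ S) (hD : 0 < D)
    (hE : E = S + D) (h1 : D / 2 ≤ Y - (S + a)) (h2 : Y - (S + a) ≤ D) (h3 : E / 2 ≤ Y)
    (h4 : Y ≤ 2 * E) :
    (S + 1) ^ (-γ) * (D / E) ≤ (4 * a ^ γ / min 1 γ) * ((S + a) ^ (-γ) - Y ^ (-γ)) ∧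
    (S + a) ^ (-γ) - Y ^ (-γ) ≤ (2 * max 1 γ) * ((S + 1) ^ (-γ) * (D / E)) := by
  have hX : 0 < S + a := by linarith
  have hY : 0 < Y := by linarith
  have hEp : 0 < E := by linarith
  have hS1 : 0 < S + 1 := by linarith
  set t : ℝ := (S + a) / Y with ht
  have ht0 : 0 < t := div_pos hX hY
  have ht1 : t ≤ 1 := by rw [ht, div_le_one hY]; linarith
  have h5 : Y ^ (-γ) = (S + a) ^ (-γ) * t ^ γ := by
    rw [ht, Real.div_rpow hX.le hY.le, Real.rpow_neg hX.le, Real.rpow_neg hY.le]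
    have := (Real.rpow_pos_of_pos hX γ).ne'
    field_simp
  have h6 : (S + a) ^ (-γ) - Y ^ (-γ) = (S + a) ^ (-γ) * (1 - t ^ γ) := by rw [h5]; ring
  have h7 : 1 - t = (Y - (S + a)) / Y := by rw [ht]; field_simp
  have h8 : D / (4 * E) ≤ 1 - t := by
    rw [h7, div_le_div_iff₀ (by linarith) hY]
    nlinarith
  have h9 : 1 - t ≤ 2 * (D / E) := by
    rw [h7, ← mul_div_assoc, div_le_div_iff₀ hY hEp]
    nlinarith
  have hXp : 0 < (S + a) ^ (-γ) := Real.rpow_pos_of_pos hX _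
  have hS1p : 0 < (S + 1) ^ (-γ) := Real.rpow_pos_of_pos hS1 _
  have hm : 0 < min 1 γ := lt_min one_pos hγ
  have hM : 0 < max 1 γ := lt_of_lt_of_le one_pos (le_max_left _ _)
  have hap : 0 < a ^ γ := Real.rpow_pos_of_pos (by linarith) _
  have h10 : (S + 1) ^ (-γ) ≤ a ^ γ * (S + a) ^ (-γ) := by
    have h11 : (S + a) ≤ a * (S + 1) := by nlinarith
    have h12 : (a * (S + 1)) ^ (-γ) ≤ (S + a) ^ (-γ) :=
      Real.rpow_le_rpow_of_nonpos hX h11 (by linarith)
    rw [Real.mul_rpow (by linarith) hS1.le] at h12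
    have h13 : a ^ γ * (a ^ (-γ) * (S + 1) ^ (-γ)) = (S + 1) ^ (-γ) := by
      rw [← mul_assoc, ← Real.rpow_add (by linarith)]
      simp
    calc (S + 1) ^ (-γ) = a ^ γ * (a ^ (-γ) * (S + 1) ^ (-γ)) := h13.symm
      _ ≤ _ := mul_le_mul_of_nonneg_left h12 hap.le
  have h14 : (S + a) ^ (-γ) ≤ (S + 1) ^ (-γ) :=
    Real.rpow_le_rpow_of_nonpos hS1 (by linarith) (by linarith)
  have hDE : 0 < D / E := div_pos hD hEp
  rw [h6]
  constructor
  · have h15 := one_sub_rpow_lower hγ ht0 ht1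
    have h16 : min 1 γ * (D / (4 * E)) ≤ 1 - t ^ γ :=
      (mul_le_mul_of_nonneg_left h8 hm.le).trans h15
    have h17 : D / E = 4 / min 1 γ * (min 1 γ * (D / (4 * E))) := by
      field_simp
    calc (S + 1) ^ (-γ) * (D / E)
        ≤ (a ^ γ * (S + a) ^ (-γ)) * (D / E) := mul_le_mul_of_nonneg_right h10 hDE.le
      _ = (a ^ γ * (S + a) ^ (-γ)) * (4 / min 1 γ * (min 1 γ * (D / (4 * E)))) := by rw [← h17]
      _ ≤ (a ^ γ * (S + a) ^ (-γ)) * (4 / min 1 γ * (1 - t ^ γ)) := by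
          apply mul_le_mul_of_nonneg_left _ (by positivity)
          exact mul_le_mul_of_nonneg_left h16 (by positivity)
      _ = 4 * a ^ γ / min 1 γ * ((S + a) ^ (-γ) * (1 - t ^ γ)) := by ring
  · have h15 := one_sub_rpow_upper hγ ht0 ht1
    have h16 : 1 - t ^ γ ≤ max 1 γ * (2 * (D / E)) :=
      h15.trans (mul_le_mul_of_nonneg_left h9 hM.le)
    have h17 : 0 ≤ max 1 γ * (2 * (D / E)) := by positivity
    calc (S + a) ^ (-γ) * (1 - t ^ γ)
        ≤ (S + a) ^ (-γ) * (max 1 γ * (2 * (D / E))) := mul_le_mul_of_nonneg_left h16 hXp.le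
      _ ≤ (S + 1) ^ (-γ) * (max 1 γ * (2 * (D / E))) := mul_le_mul_of_nonneg_right h14 h17
      _ = 2 * max 1 γ * ((S + 1) ^ (-γ) * (D / E)) := by ring

/-- **Part BND.** -/
theorem t_BND : S_BND := by
  intro _ d a b al c₀ hd ha hb hal hc0 hc1
  have hd' : (3 : ℝ) ≤ d := by exact_mod_cast hd
  have hbt : 0 < bt d := by unfold bt; linarith
  have hal2 : 0 < al / 2 := by linarith
  have hk1 : 0 ≤ 4 * a ^ bt d / min 1 (bt d) := by
    have : 0 < min 1 (bt d) := lt_min one_pos hbt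
    positivity
  have hk2 : 0 ≤ 4 * a ^ (al / 2) / min 1 (al / 2) := by
    have : 0 < min 1 (al / 2) := lt_min one_pos hal2
    positivity
  have hk3 : 0 ≤ 2 * max 1 (bt d) := by positivity
  have hk4 : 0 ≤ 2 * max 1 (al / 2) := by positivity
  set k1 := 4 * a ^ bt d / min 1 (bt d) with hk1d
  set k2 := 4 * a ^ (al / 2) / min 1 (al / 2) with hk2d
  set k3 := 2 * max 1 (bt d) with hk3d
  set k4 := 2 * max 1 (al / 2) with hk4d
  refine ⟨1 + 2 * (a + b) + k1 + k2 + k3 + k4, by linarith, ?_⟩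
  intro N z _ x _ hD
  have hS := nsq_nonneg (x - z)
  set S := nsq (x - z) with hSd
  set E := Ez N z x with hEd
  have hD0 : 0 < E - S := by linarith
  have hE : E = S + (E - S) := by ring
  have hQ0 : 0 < (S + 1) ^ (-bt d) * ((E - S) / E) :=
    mul_pos (Real.rpow_pos_of_pos (by linarith) _) (div_pos hD0 (by linarith))
  have hQ1 : 0 < (S + 1) ^ (-(al / 2)) * ((E - S) / E) :=
    mul_pos (Real.rpow_pos_of_pos (by linarith) _) (div_pos hD0 (by linarith))
  obtain ⟨A1, A2⟩ := diff_bounds (γ := bt d) (a := a) (S := S) (D := E - S) (E := E) (Y := E - b)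
    hbt ha hS hD0 hE (by linarith) (by linarith) (by linarith) (by linarith)
  obtain ⟨B1, B2⟩ := diff_bounds (γ := al / 2) (a := a) (S := S) (D := E - S) (E := E)
    (Y := E + a) hal2 ha hS hD0 hE (by linarith) (by linarith) (by linarith) (by linarith)
  have e1 : uS d a b N z x = (S + a) ^ (-bt d) - (E - b) ^ (-bt d) := rfl
  have e2 : fS d a al N z x = (S + a) ^ (-(al / 2)) - (E + a) ^ (-(al / 2)) := rfl
  rw [← e1, ← hk1d] at A1
  rw [← e1, ← hk3d] at A2
  rw [← e2, ← hk2d] at B1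
  rw [← e2, ← hk4d] at B2
  have hu : 0 ≤ uS d a b N z x := by
    by_contra hneg
    push Not at hneg
    nlinarith
  have hf : 0 ≤ fS d a al N z x := by
    by_contra hneg
    push Not at hneg
    nlinarith
  refine ⟨A1.trans ?_, A2.trans ?_, B1.trans ?_, B2.trans ?_⟩
  · exact mul_le_mul_of_nonneg_right (by linarith) hu
  · exact mul_le_mul_of_nonneg_right (by linarith) hQ0.le
  · exact mul_le_mul_of_nonneg_right (by linarith) hf
  · exact mul_le_mul_of_nonneg_right (by linarith) hQ1.le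

end Pool.Agent.H18.BD
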