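import Pool.Agent.H3.BI.Stm2

/-!
# Project BD, part IN2
-/

set_option autoImplicit false

open scoped ENNReal
open Finset MeasureTheory

namespace Pool.Agent.H18.BD

open Pool.Agent.H3.BI

theorem nrm_eq_norm {d : ℕ} (x : Site d) :
    nrm x = ‖(WithLp.toLp 2 (fun i => (x i : ℝ)) : EuclideanSpace ℝ (Fin d))‖ := by
  rw [EuclideanSpace.norm_eq]
  unfold nrm nsq
  congr 1
  refine Finset.sum_congr rfl fun i _ => ?_
  simp

theorem nrm_tri {d : ℕ} (x z : Site d) : nrm x ≤ nrm (x - z) + nrm z := by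
  rw [nrm_eq_norm, nrm_eq_norm, nrm_eq_norm]
  have : (WithLp.toLp 2 (fun i => (x i : ℝ)) : EuclideanSpace ℝ (Fin d)) =
      WithLp.toLp 2 (fun i => ((x - z) i : ℝ)) + WithLp.toLp 2 (fun i => (z i : ℝ)) := by
    ext i
    simp
  rw [this]
  exact norm_add_le _ _

theorem one_le_nsq {d : ℕ} (x : Site d) (hx : x ≠ 0) : 1 ≤ nsq x := by
  have : ∃ i, x i ≠ 0 := by
    by_contra h
    push Not at h
    exact hx (funext h)
  obtain ⟨i, hi⟩ := this
  have h1 : (1 : ℝ) ≤ (x i : ℝ) ^ 2 := by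
    have h2 : (1 : ℤ) ≤ (x i) ^ 2 := by
      have := pow_pos (abs_pos.2 hi) 2
      rw [sq_abs] at this
      omega
    exact_mod_cast h2
  refine h1.trans ?_
  exact Finset.single_le_sum (f := fun i => (x i : ℝ) ^ 2) (fun _ _ => sq_nonneg _)
    (Finset.mem_univ i)

theorem pw16 {β T S : ℝ} (hβ : 1 / 2 ≤ β) (hT : 0 < T) (h : 16 * T ≤ S) :
    4 * S ^ (-β) ≤ T ^ (-β) := by
  have h1 : S ^ (-β) ≤ (16 * T) ^ (-β) :=
    Real.rpow_le_rpow_of_nonpos (by linarith) h (by linarith)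
  rw [Real.mul_rpow (by norm_num) hT.le] at h1
  have h2 : (16 : ℝ) ^ (-β) ≤ (16 : ℝ) ^ (-(1 / 2 : ℝ)) :=
    Real.rpow_le_rpow_of_exponent_le (by norm_num) (by linarith)
  have h3 : (16 : ℝ) ^ (-(1 / 2 : ℝ)) = 1 / 4 := by
    rw [Real.rpow_neg (by norm_num), ← Real.sqrt_eq_rpow]
    rw [show (16 : ℝ) = 4 ^ 2 by norm_num, Real.sqrt_sq (by norm_num)]
    norm_num
  rw [h3] at h2
  have h4 : 0 < T ^ (-β) := Real.rpow_pos_of_pos hT _
  nlinarith

/-- **Part IN2.** -/
theorem t_IN2 : S_IN2 := by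
  intro hKER hCNT hLAT d hd
  obtain ⟨Ck, k, hCk1, hk0, hkC, hksub, hklo, hkhi⟩ := hKER d hd
  obtain ⟨hom, _⟩ := hCNT d hd
  obtain ⟨CL, hCL1, hCL⟩ := hLAT d hd
  have hd' : (3 : ℝ) ≤ d := by exact_mod_cast hd
  have hβ : 1 / 2 ≤ bt d := by unfold bt; linarith
  set β := bt d with hβd
  -- upper bound for the kernel
  set Cu : ℝ := (1 + Ck) * 2 ^ β with hCu
  have h2β : (1 : ℝ) ≤ 2 ^ β := Real.one_le_rpow (by norm_num) (by linarith)
  have hCu1 : 1 + Ck ≤ Cu := by
    rw [hCu]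
    nlinarith
  have hku : ∀ x : Site d, k x ≤ Cu * (nsq x + 1) ^ (-β) := by
    intro x
    by_cases hx : x = 0
    · subst hx
      have h0 : nsq (0 : Site d) = 0 := by simp [nsq]
      rw [h0, zero_add, Real.one_rpow, mul_one]
      linarith [hkC 0]
    · have h1 := one_le_nsq x hx
      have hn : 0 < nsq x := by linarith
      have h2 := hkhi x hx
      have h3 : nsq x ^ (-β - 1) ≤ nsq x ^ (-β) :=
        Real.rpow_le_rpow_of_exponent_le h1 (by linarith)
      have h4 : k x ≤ (1 + Ck) * nsq x ^ (-β) := by nlinarith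
      have h5 : nsq x ^ (-β) ≤ 2 ^ β * (nsq x + 1) ^ (-β) := by
        have h6 : (2 * nsq x) ^ (-β) ≤ (nsq x + 1) ^ (-β) :=
          Real.rpow_le_rpow_of_nonpos (by linarith) (by linarith) (by linarith)
        rw [Real.mul_rpow (by norm_num) hn.le] at h6
        have h7 : (2 : ℝ) ^ β * (2 ^ (-β) * nsq x ^ (-β)) = nsq x ^ (-β) := by
          rw [← mul_assoc, ← Real.rpow_add (by norm_num)]
          simp
        rw [← h7]
        exact mul_le_mul_of_nonneg_left h6 (by positivity)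
      calc k x ≤ (1 + Ck) * nsq x ^ (-β) := h4
        _ ≤ (1 + Ck) * (2 ^ β * (nsq x + 1) ^ (-β)) :=
            mul_le_mul_of_nonneg_left h5 (by linarith)
        _ = _ := by rw [hCu]; ring
  -- far from the pole
  have hkf : ∀ x : Site d, x ≠ 0 → Ck ≤ nsq x → k x ≤ 2 * nsq x ^ (-β) := by
    intro x hx hC
    have h1 := one_le_nsq x hx
    have hn : 0 < nsq x := by linarith
    have h2 := hkhi x hx
    have h3 : nsq x ^ (-β - 1) = nsq x ^ (-β) / nsq x := by
      rw [Real.rpow_sub hn, Real.rpow_one]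
    have h4 : 0 < nsq x ^ (-β) := Real.rpow_pos_of_pos hn _
    have h5 : Ck * nsq x ^ (-β - 1) ≤ nsq x ^ (-β) := by
      rw [h3, ← mul_div_assoc, div_le_iff₀ hn]
      nlinarith
    linarith
  -- constants
  set c₁ : ℝ := min (1 / 8) (3 * om d / (128 * (Cu * CL))) with hc₁
  have hCuCL : 0 < Cu * CL := by
    apply mul_pos <;> linarith
  have hc₁0 : 0 < c₁ := by
    rw [hc₁]
    apply lt_min (by norm_num)
    positivity
  have hc₁8 : c₁ ≤ 1 / 8 := min_le_left _ _
  have hc₁m : 16 * (Cu * CL) * c₁ ≤ 3 / 8 * om d := by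
    have h1 : c₁ ≤ 3 * om d / (128 * (Cu * CL)) := min_le_right _ _
    rw [le_div_iff₀ (by positivity)] at h1
    linarith
  refine ⟨c₁ / 4, 2 + Cu + 4 * Ck + Ck / (16 * c₁ ^ 2) + 1 / (4 * c₁), by positivity,
    by linarith, ?_, ?_⟩
  · have h1 : 0 ≤ Ck / (16 * c₁ ^ 2) := by positivity
    have h2 : 0 ≤ 1 / (4 * c₁) := by positivity
    linarith
  intro N z hN hz hzN
  have hp1 : 0 ≤ Ck / (16 * c₁ ^ 2) := by positivity
  have hp2 : 0 ≤ 1 / (4 * c₁) := by positivity
  have hN1 : 1 ≤ N := by linarith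
  have hN0 : 0 < N := by linarith
  have hNN : N ≤ N ^ 2 := by nlinarith
  set T : ℝ := (c₁ * N) ^ 2 with hT
  have hT0 : 0 < T := by positivity
  have hTC : Ck ≤ 16 * T := by
    have h1 : Ck / (16 * c₁ ^ 2) ≤ N ^ 2 := by linarith
    rw [div_le_iff₀ (by positivity)] at h1
    rw [hT]
    nlinarith
  have hNC : Ck ≤ N ^ 2 / 4 := by linarith
  have hρ1 : 1 ≤ 4 * c₁ * N := by
    have h1 : 1 / (4 * c₁) ≤ N := by linarith
    rw [div_le_iff₀ (by positivity)] at h1
    linarith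
  have hzT : 16 * nsq z ≤ T := by
    rw [← nrm_sq z, hT]
    have h0 := nrm_nonneg z
    have h1 : 4 * nrm z ≤ c₁ * N := by linarith
    nlinarith
  have hzn : 0 < nsq z := by linarith [one_le_nsq z hz]
  set θ : ℝ := T ^ (-β) with hθ
  have hθ0 : 0 < θ := Real.rpow_pos_of_pos hT0 _
  have hzθ : 4 * θ ≤ nsq z ^ (-β) := pw16 hβ hzn hzT
  -- far away
  have hfar : ∀ x : Site d, x ≠ z → 16 * T ≤ nsq (x - z) → k (x - z) ≤ θ := by
    intro x hx hS
    have h1 : x - z ≠ 0 := sub_ne_zero.2 hx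
    have h2 := hkf (x - z) h1 (by linarith)
    have h3 := pw16 hβ hT0 hS
    have h4 : 0 < nsq (x - z) ^ (-β) := Real.rpow_pos_of_pos (by linarith [one_le_nsq _ h1]) _
    linarith
  set u : Site d → ℝ := fun x => max 0 (k (x - z) - θ) with hu
  have hu0 : ∀ x, 0 ≤ u x := fun x => le_max_left _ _
  have huk : ∀ x, u x ≤ k (x - z) := fun x => max_le (hk0 _) (by linarith)
  have hub : ∀ x, u x ≤ Cu * (nsq (x - z) + 1) ^ (-β) := fun x => (huk x).trans (hku _)
  have hPos : ∀ x : Site d, 0 < (nsq (x - z) + 1) ^ (-β) := fun x =>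
    Real.rpow_pos_of_pos (by linarith [nsq_nonneg (x - z)]) _
  have hz0 : 3 / 4 * nsq z ^ (-β) ≤ u 0 := by
    have h1 : (0 : Site d) - z ≠ 0 := by
      rw [zero_sub]
      exact neg_ne_zero.2 hz
    have h2 := hklo (0 - z) h1
    have h3 : nsq (0 - z) = nsq z := by simp [nsq]
    rw [h3] at h2
    have h4 : k (0 - z) - θ ≤ u 0 := le_max_right _ _
    linarith
  refine ⟨u, hu0, ?_, ?_, ?_, ?_, ?_⟩
  · intro x
    refine (hub x).trans (mul_le_mul_of_nonneg_right ?_ (hPos x).le)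
    linarith
  · intro x hx
    have h1 := nrm_tri x z
    have h20 : c₁ / 4 * N ≤ 1 / 32 * N :=
      mul_le_mul_of_nonneg_right (by linarith) hN0.le
    have h2 : N / 2 ≤ nrm (x - z) := by linarith
    have h3 : N ^ 2 / 4 ≤ nsq (x - z) := by
      rw [← nrm_sq (x - z)]
      calc N ^ 2 / 4 = (N / 2) ^ 2 := by ring
        _ ≤ nrm (x - z) ^ 2 := pow_le_pow_left₀ (by linarith) h2 2
    have h4 : 16 * T ≤ nsq (x - z) := by
      refine le_trans ?_ h3
      rw [hT, mul_pow]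
      have h41 : c₁ ^ 2 ≤ 1 / 64 := by
        calc c₁ ^ 2 ≤ (1 / 8) ^ 2 := pow_le_pow_left₀ hc₁0.le hc₁8 2
          _ = 1 / 64 := by norm_num
      have h42 : c₁ ^ 2 * N ^ 2 ≤ 1 / 64 * N ^ 2 :=
        mul_le_mul_of_nonneg_right h41 (sq_nonneg N)
      linarith
    have h5 : x ≠ z := by
      rintro rfl
      simp [nsq] at h4
      linarith
    have h6 := hfar x h5 h4
    exact max_eq_left (by linarith)
  · intro x hx
    have hd0 : (0 : ℝ) < 2 * d := by linarith
    apply max_le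
    · unfold PP
      apply div_nonneg (Finset.sum_nonneg fun e _ => hu0 _) hd0.le
    · have h1 := hksub (x - z) (sub_ne_zero.2 hx)
      have h2 : PP k (x - z) - θ ≤ PP u x := by
        unfold PP
        rw [div_sub' hd0.ne']
        apply div_le_div_of_nonneg_right _ hd0.le
        have h3 : 2 * (d : ℝ) * θ = ∑ _e : Dir d, θ := by
          rw [Finset.sum_const, Finset.card_univ, nsmul_eq_mul, Fintype.card_prod,
            Fintype.card_fin, Fintype.card_bool]
          push_cast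
          ring
        rw [h3, ← Finset.sum_sub_distrib]
        refine Finset.sum_le_sum fun e _ => ?_
        have h4 : x - z + uvec e = x + uvec e - z := by abel
        rw [h4]
        exact le_max_right _ _
      linarith
  · have h1 : (nsq z + 1) ^ (-β) ≤ nsq z ^ (-β) :=
      Real.rpow_le_rpow_of_nonpos hzn (by linarith) (by linarith)
    have h2 : 0 < nsq z ^ (-β) := Real.rpow_pos_of_pos hzn _
    have h3 := hu0 0
    have h4 : 2 * u 0 ≤ (2 + Cu + 4 * Ck + Ck / (16 * c₁ ^ 2) + 1 / (4 * c₁)) * u 0 :=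
      mul_le_mul_of_nonneg_right (by linarith) h3
    linarith
  · -- the sum
    have h1 : ∑ x ∈ (bF d N).erase z, u x ≤
        ∑ x ∈ ((bF d N).erase z).filter (fun x => nrm (x - z) ≤ 4 * c₁ * N), u x := by
      rw [Finset.sum_filter]
      refine Finset.sum_le_sum fun x hx => ?_
      have hxz : x ≠ z := Finset.ne_of_mem_erase hx
      split_ifs with h
      · exact le_rfl
      · push Not at h
        have h2 : 16 * T ≤ nsq (x - z) := by
          rw [← nrm_sq (x - z), hT]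
          nlinarith
        have h3 := hfar x hxz h2
        exact (max_eq_left (by linarith : k (x - z) - θ ≤ 0)).le
    have h2 : ∑ x ∈ ((bF d N).erase z).filter (fun x => nrm (x - z) ≤ 4 * c₁ * N), u x ≤
        Cu * (CL * (4 * c₁ * N) ^ 2) := by
      have h3 := (hCL (4 * c₁ * N) z
        (((bF d N).erase z).filter (fun x => nrm (x - z) ≤ 4 * c₁ * N)) hρ1).1
        (fun y hy => (Finset.mem_filter.1 hy).2)
      calc ∑ x ∈ ((bF d N).erase z).filter (fun x => nrm (x - z) ≤ 4 * c₁ * N), u x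
          ≤ ∑ x ∈ ((bF d N).erase z).filter (fun x => nrm (x - z) ≤ 4 * c₁ * N),
              Cu * (nsq (x - z) + 1) ^ (-β) := Finset.sum_le_sum fun x _ => hub x
        _ = Cu * ∑ x ∈ ((bF d N).erase z).filter (fun x => nrm (x - z) ≤ 4 * c₁ * N),
              (nsq (x - z) + 1) ^ (-β) := by rw [Finset.mul_sum]
        _ ≤ Cu * (CL * (4 * c₁ * N) ^ 2) :=
            mul_le_mul_of_nonneg_left h3.2.1 (by linarith)
    have h3 : (N ^ 2) ^ (-β) ≤ nsq z ^ (-β) := by
      apply Real.rpow_le_rpow_of_nonpos hzn _ (by linarith)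
      have : T ≤ N ^ 2 := by
        rw [hT, mul_pow]
        have h41 : c₁ ^ 2 ≤ 1 := pow_le_one₀ hc₁0.le (by linarith)
        have h42 : c₁ ^ 2 * N ^ 2 ≤ 1 * N ^ 2 :=
          mul_le_mul_of_nonneg_right h41 (sq_nonneg N)
        linarith
      linarith
    have h4 : N ^ d * (N ^ 2) ^ (-β) = N ^ 2 := by
      rw [← Real.rpow_natCast N d, ← Real.rpow_natCast N 2, ← Real.rpow_mul hN0.le,
        ← Real.rpow_add hN0]
      congr 1
      rw [hβd]
      unfold bt
      push_cast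
      ring
    have h5 : Cu * (CL * (4 * c₁ * N) ^ 2) ≤ 3 / 8 * om d * N ^ 2 := by
      have h6 : Cu * (CL * (4 * c₁ * N) ^ 2) = 16 * (Cu * CL) * c₁ * c₁ * N ^ 2 := by ring
      rw [h6]
      apply mul_le_mul_of_nonneg_right _ (by positivity)
      nlinarith
    have h7 : 3 / 8 * om d * N ^ 2 ≤ om d * N ^ d * u 0 / 2 := by
      rw [← h4]
      have h8 : 3 / 4 * (N ^ 2) ^ (-β) ≤ u 0 := by linarith
      have h9 : 0 ≤ om d * N ^ d := by positivity
      nlinarith [mul_le_mul_of_nonneg_left h8 h9]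
    linarith

end Pool.Agent.H18.BD
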