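import Pool.Agent.H3.BI.Stm2

/-!
# Project BD, part SPR
-/

set_option autoImplicit false

open scoped ENNReal
open Finset MeasureTheory

namespace Pool.Agent.H18.BD

open Pool.Agent.H3.BI

theorem cast_add {d : ℕ} (x : Site d) (e : Dir d) :
    (fun i => ((x + uvec e) i : ℝ)) = (fun i => (x i : ℝ)) + rvec e := by
  funext i
  by_cases h : i = e.1
  · subst h
    by_cases h2 : e.2 <;> simp [uvec, rvec, h2]
  · simp [uvec, rvec, h]

theorem PP_eq_PR {d : ℕ} (f : (Fin d → ℝ) → ℝ) (x : Site d) :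
    PP (fun y => f (fun i => (y i : ℝ))) x = PR f (fun i => (x i : ℝ)) := by
  unfold PP PR
  congr 1
  refine Finset.sum_congr rfl fun e _ => ?_
  simp only []
  rw [cast_add]

theorem uvec_neg {d : ℕ} (e : Dir d) : uvec (e.1, !e.2) = -uvec e := by
  funext i
  by_cases h : i = e.1
  · subst h
    by_cases h2 : e.2 <;> simp [uvec, h2]
  · simp [uvec, h]

theorem nsq_neg {d : ℕ} (x : Site d) : nsq (-x) = nsq x := by
  simp [nsq]

theorem kk_neg {d : ℕ} (a : ℝ) (x : Site d) : kk d a (-x) = kk d a x := by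
  simp [kk, nsq_neg]

theorem PP_kk_neg {d : ℕ} (a : ℝ) (x : Site d) : PP (kk d a) (-x) = PP (kk d a) x := by
  unfold PP
  congr 1
  let φ : Dir d ≃ Dir d :=
    { toFun := fun e => (e.1, !e.2)
      invFun := fun e => (e.1, !e.2)
      left_inv := fun e => by simp
      right_inv := fun e => by simp }
  rw [← Equiv.sum_comp φ]
  refine Finset.sum_congr rfl fun e _ => ?_
  have : -x + uvec (φ e) = -(x + uvec e) := by
    show -x + uvec (e.1, !e.2) = _
    rw [uvec_neg]
    abel
  rw [this, kk_neg]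

theorem qr_nonneg {d : ℕ} (w : Fin d → ℝ) : 0 ≤ qr w :=
  Finset.sum_nonneg fun _ _ => sq_nonneg _

/-- **Part SPR.** -/
theorem t_SPR : S_SPR := by
  intro hK d hd
  have hd' : (3 : ℝ) ≤ d := by exact_mod_cast hd
  have hb : 0 < bt d := by unfold bt; linarith
  obtain ⟨C, hC1, hC⟩ := hK d (bt d) hd hb
  have hc0 : 0 < 2 * bt d * (bt d + 1) / d := by positivity
  set c₀ : ℝ := 2 * bt d * (bt d + 1) / d with hc0def
  have key : ∀ (a : ℝ) (w : Fin d → ℝ), 3 ≤ a →
      |(qr w + a) ^ (-bt d) - PR (fun v => (qr v + a) ^ (-bt d)) w -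
        c₀ * a * (qr w + a) ^ (-bt d - 2)| ≤ C * (qr w + a) ^ (-bt d - 2) := by
    intro a w ha
    have hq := qr_nonneg w
    have h1 := hC a w (by linarith) (by
      have hs := Real.sq_sqrt hq
      nlinarith [sq_nonneg (Real.sqrt (qr w) - 2)]) (by linarith)
    have h2 : (bt d * (d - 2 - 2 * bt d) / d * (qr w + a) ^ (-bt d - 1) +
        2 * bt d * (bt d + 1) * a / d * (qr w + a) ^ (-bt d - 2)) =
          c₀ * a * (qr w + a) ^ (-bt d - 2) := by
      have h3 : (d : ℝ) - 2 - 2 * bt d = 0 := by unfold bt; ring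
      rw [h3, hc0def]
      ring
    rw [h2] at h1
    exact h1
  refine ⟨3 + (C + 1) / c₀, ?_, ?_, ?_⟩
  · have : 0 ≤ (C + 1) / c₀ := by positivity
    linarith
  · intro a w ha
    have h0 : 0 ≤ (C + 1) / c₀ := by positivity
    have h1 := key a w (by linarith)
    have hQ : 0 < qr w + a := by linarith [qr_nonneg w]
    have h2 : 0 < (qr w + a) ^ (-bt d - 2) := Real.rpow_pos_of_pos hQ _
    have h3 : C + 1 ≤ c₀ * a := by
      have : (C + 1) / c₀ ≤ a := by linarith
      rw [div_le_iff₀ hc0] at this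
      linarith
    have h4 := (abs_le.1 h1).1
    nlinarith
  · intro a ha
    have h0 : 0 ≤ (C + 1) / c₀ := by positivity
    have ha3 : 3 ≤ a := by linarith
    have h3 : C + 1 ≤ c₀ * a := by
      have : (C + 1) / c₀ ≤ a := by linarith
      rw [div_le_iff₀ hc0] at this
      linarith
    have hd2 : 0 < 2 / ((d : ℝ) - 2) := by
      apply div_pos <;> linarith
    have hlow : ∀ x : Site d, 2 / ((d : ℝ) - 2) * (nsq x + a) ^ (-bt d - 2) ≤ mm d a x := by
      intro x
      have h1 := key a (fun i => (x i : ℝ)) ha3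
      have hQ : 0 < nsq x + a := by linarith [nsq_nonneg x]
      have h2 : 0 < (nsq x + a) ^ (-bt d - 2) := Real.rpow_pos_of_pos hQ _
      have h4 := (abs_le.1 h1).1
      have h5 : PR (fun v => (qr v + a) ^ (-bt d)) (fun i => (x i : ℝ)) = PP (kk d a) x := by
        rw [← PP_eq_PR]
        rfl
      have h6 : (qr (fun i => (x i : ℝ)) + a) = nsq x + a := rfl
      rw [h5, h6] at h4
      unfold mm
      apply mul_le_mul_of_nonneg_left _ hd2.le
      have h7 : kk d a x = (nsq x + a) ^ (-bt d) := rfl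
      rw [h7]
      nlinarith
    have hup : ∀ x : Site d, mm d a x ≤
        2 / ((d : ℝ) - 2) * ((c₀ * a + C) * (nsq x + a) ^ (-bt d - 2)) := by
      intro x
      have h1 := key a (fun i => (x i : ℝ)) ha3
      have hQ : 0 < nsq x + a := by linarith [nsq_nonneg x]
      have h2 : 0 < (nsq x + a) ^ (-bt d - 2) := Real.rpow_pos_of_pos hQ _
      have h4 := (abs_le.1 h1).2
      have h5 : PR (fun v => (qr v + a) ^ (-bt d)) (fun i => (x i : ℝ)) = PP (kk d a) x := by
        rw [← PP_eq_PR]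
        rfl
      have h6 : (qr (fun i => (x i : ℝ)) + a) = nsq x + a := rfl
      rw [h5, h6] at h4
      unfold mm
      apply mul_le_mul_of_nonneg_left _ hd2.le
      have h7 : kk d a x = (nsq x + a) ^ (-bt d) := rfl
      rw [h7]
      nlinarith
    have hmul : 0 ≤ 2 / ((d : ℝ) - 2) * (c₀ * a + C) := by
      apply mul_nonneg hd2.le
      linarith
    refine ⟨1 + 2 / ((d : ℝ) - 2) * (c₀ * a + C), by linarith, ?_, ?_⟩
    · refine lt_of_lt_of_le ?_ (hlow 0)
      apply mul_pos hd2
      apply Real.rpow_pos_of_pos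
      linarith [nsq_nonneg (0 : Site d)]
    · intro x
      have hQ : 0 < nsq x + a := by linarith [nsq_nonneg x]
      have h2 : 0 < (nsq x + a) ^ (-bt d - 2) := Real.rpow_pos_of_pos hQ _
      refine ⟨?_, ?_, ?_⟩
      · refine le_trans ?_ (hlow x)
        exact (mul_pos hd2 h2).le
      · unfold mm
        rw [kk_neg, PP_kk_neg]
      · refine (hup x).trans ?_
        have h8 : -bt d - 2 = -((d : ℝ) / 2) - 1 := by unfold bt; ring
        have h9 : (nsq x + a) ^ (-bt d - 2) ≤ (nsq x + 1) ^ (-((d : ℝ) / 2) - 1) := by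
          rw [h8]
          apply Real.rpow_le_rpow_of_nonpos
          · linarith [nsq_nonneg x]
          · linarith
          · linarith
        have h10 : 0 < (nsq x + 1) ^ (-((d : ℝ) / 2) - 1) :=
          Real.rpow_pos_of_pos (by linarith [nsq_nonneg x]) _
        calc 2 / ((d : ℝ) - 2) * ((c₀ * a + C) * (nsq x + a) ^ (-bt d - 2))
            = (2 / ((d : ℝ) - 2) * (c₀ * a + C)) * (nsq x + a) ^ (-bt d - 2) := by ring
          _ ≤ (2 / ((d : ℝ) - 2) * (c₀ * a + C)) * (nsq x + 1) ^ (-((d : ℝ) / 2) - 1) :=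
              mul_le_mul_of_nonneg_left h9 hmul
          _ ≤ (1 + 2 / ((d : ℝ) - 2) * (c₀ * a + C)) * (nsq x + 1) ^ (-((d : ℝ) / 2) - 1) := by
              apply mul_le_mul_of_nonneg_right _ h10.le
              linarith

end Pool.Agent.H18.BD
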